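import Mathlib
import Pool.Agent.H772R2.NS.Pub
import Pool.Agent.H772R2.NSR.PubR
import Pool.Agent.H772R2.NAX.PubA
import Pool.Agent.H772R2.NAX.FinalB

open MeasureTheory Set Filter Topology H772R2.NS.Pub
open scoped InnerProductSpace ENNReal

/-- **Global axisymmetric flows after a small change near the axis.** Let `ν > 0`. Let `δ > 0` be
as small as one likes and let `0 ≤ ρ ≤ 1` be a rotation invariant weight which is `1` in the
tube `r ≤ δ` around the axis (for instance the indicator function of this tube); write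
`‖∇u‖_ρ² = ∫ ρ |∇u|²`. Let `κ > 0` be as small and `S > 0` as large as one likes. Consider the
Navier-Stokes equations in the whole space with the viscosity `ν + h(t) ρ(x)`,
`h(t) = κ (√(max ‖∇u(t)‖_ρ S) - √S)`, so that nothing is changed at the times where `‖∇u‖_ρ ≤ S`
and outside of the support of `ρ`. Let `u₀ ∈ H¹(ℝ³)` be divergence free and axisymmetric (swirl
allowed), of any size, with gradient `z₀`, `‖z₀‖_ρ ≤ S`, and with initial acceleration in `L²`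
(which holds if `u₀ ∈ H²`). Then there is a global solution `u`, `u(0) = u₀`; it is a strong
solution on every `[0,T]`, the only one, and axisymmetric; `‖∇u(t)‖` is bounded on `[0,∞)` and
tends to `0`; it coincides on `[0,T]` with the solution `v` of the unchanged Navier-Stokes
equations, if the latter exists with `‖∇v‖_ρ ≤ S` on `[0,T]`; `h(t) = 0` for large `t`, the set of
the times where `h ≠ 0` has measure at most `‖u₀‖²/(2νS²)`, and `∫₀^∞ h⁵ ≤ κ⁴ ‖u₀‖²/2`. Written as a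
force `⟨f(t), φ⟩ = (F(t), ∇φ)` in the equations with viscosity `ν`, the change is
`F(t) = -h(t) ρ ∇u(t)`, with `∫₀^∞ ‖F‖^{5/3} ≤ κ^{2/3} ‖u₀‖²/2`, the norm being that of `L²(ℝ³)`.
The energy equality holds. -/
theorem Pool.Agent.Results.MP_09540e_an.AxisTube.result :
    ∀ {ν κ S : ℝ}, 0 < ν → 0 < κ → 0 < S →
      ∀ {δ : ℝ}, 0 < δ → ∀ {ρ : R3 → ℝ}, Measurable ρ → (∀ x, ρ x ∈ Icc (0 : ℝ) 1) →
        (∀ θ x, ρ (rot θ x) = ρ x) → (∀ x, axisDist x ≤ δ → ρ x = 1) →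
      ∀ {u0 : L2 (univ : Set R3) R3} {z0 : L2 (univ : Set R3) Mat},
        (u0, z0) ∈ H1graph univ → IsAxi u0 →
        (∃ g : L2 (univ : Set R3) R3, ∀ φ, IsTest univ φ →
          rhs ν u0 z0 0 φ = ∫ x in univ, ⟪g.fn x, φ x⟫_ℝ) → tubeNorm ρ z0 ≤ S →
      ∃ (T2 M : ℝ) (h : ℝ → ℝ) (u : ℝ → L2 (univ : Set R3) R3)
        (G F : ℝ → L2 (univ : Set R3) Mat),
        (∀ t, h t = incr κ S (tubeNorm ρ (G t))) ∧ u 0 = u0 ∧
        (∀ t, 0 ≤ t → IsAxi (u t) ∧ ‖G t‖ ≤ M) ∧ Tendsto (fun t => ‖G t‖) atTop (𝓝 0) ∧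
        (∀ t, T2 ≤ t → h t = 0) ∧
        volume {t | 0 ≤ t ∧ h t ≠ 0} ≤ ENNReal.ofReal (‖u0‖ ^ 2 / (2 * ν * S ^ 2)) ∧
        ∀ T, 0 < T → (∃ (u' : ℝ → L2 (univ : Set R3) R3) (G' : ℝ → L2 (univ : Set R3) Mat),
            IsModified ν κ S ρ T F u u' G G') ∧
          (∀ {Φ : ℝ → L2 (univ : Set R3) Mat} {w w' : ℝ → L2 (univ : Set R3) R3}
            {H H' : ℝ → L2 (univ : Set R3) Mat}, IsModified ν κ S ρ T Φ w w' H H' → w 0 = u0 →
            ∀ t ∈ Icc 0 T, w t = u t) ∧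
          (∀ {v v' : ℝ → L2 (univ : Set R3) R3} {Y Y' : ℝ → L2 (univ : Set R3) Mat},
            IsStrong univ ν T (fun _ => 0) v v' Y Y' → v 0 = u0 →
            (∀ t ∈ Icc 0 T, tubeNorm ρ (Y t) ≤ S) → ∀ t ∈ Icc 0 T, u t = v t ∧ h t = 0) ∧
          ContinuousOn h (Icc 0 T) ∧ ∫ t in (0 : ℝ)..T, h t ^ 5 ≤ κ ^ 4 * (‖u0‖ ^ 2 / 2) ∧
          ∫ t in (0 : ℝ)..T, ‖F t‖ ^ (5 / 3 : ℝ) ≤ κ ^ (2 / 3 : ℝ) * (‖u0‖ ^ 2 / 2) ∧
          ‖u T‖ ^ 2 / 2 + ∫ s in (0 : ℝ)..T, (ν * ‖G s‖ ^ 2 - ⟪F s, G s⟫_ℝ)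
            = ‖u0‖ ^ 2 / 2 := by
  intro ν κ S hν hκ hS δ hδ ρ hρm hρ hρr hρ1 u0 z0 h0 hax hc hSz
  exact H772R2.NAX.axis_pub hν hκ hS hδ hρm hρ hρr hρ1 h0 hax hc hSz
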