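import Mathlib
import Pool.Agent.H772R2.NS.Pub
import Pool.Agent.H772R2.NSR.PubR
import Pool.Agent.H772R2.NAX.PubA
import Pool.Agent.H772R2.NAX.FinD

open MeasureTheory Set Filter Topology H772R2.NS.Pub
open scoped InnerProductSpace ENNReal

/-- **Global axisymmetric flows with a small force that finitely many test fields do not see.** Let
`ν > 0`, let `u₀ ∈ H¹(ℝ³)` be divergence free and axisymmetric (swirl allowed), of any size, with
gradient `z₀` and with initial acceleration in `L²` (which holds if `u₀ ∈ H²`), and let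
`ψ₁, …, ψ_k` be any divergence free test fields. Let `κ > 0` be as small and `S ≥ ‖z₀‖` as large as
one likes. Then there are `u` on `[0,∞)`, `u(0) = u₀`, `G(t) = ∇u(t)`, and divergence free test
fields `w(t)` with gradients `B(t)` such that `G(t) - B(t)` is orthogonal in `L²` to `B(t)` and to
`∇ψ₁, …, ∇ψ_k`, and `u` is an axisymmetric strong solution on every `[0,T]` of the Navier-Stokes
equations in the whole space with viscosity `ν` and force `⟨f(t), φ⟩ = (F(t), ∇φ)`,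
`F(t) = -h(t) (G(t) - B(t))`, `h(t) = κ (√(max ‖G(t) - B(t)‖ S) - √S) ≥ 0`; so the force is that of a
viscosity increase acting on `u - w` only, and `⟨f(t), ψ_j⟩ = 0`: the equations tested with
`ψ₁, …, ψ_k` are those of the unchanged problem. Moreover `h(t) = 0` for large `t`, the set of the
times where the force is not zero has measure at most `‖u₀‖²/(2νS²)`, `∫₀^∞ h⁵ ≤ κ⁴ ‖u₀‖²/2` and
`∫₀^∞ ‖F‖^{5/3} ≤ κ^{2/3} ‖u₀‖²/2`, the norm being that of `L²(ℝ³)`; `‖∇u(t)‖` is bounded on `[0,∞)`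
and tends to `0`; the energy equality holds; and `u` coincides on `[0,T]` with the solution `v` of
the unchanged Navier-Stokes equations, if the latter exists with `‖∇v‖ ≤ S` on `[0,T]`. -/
theorem Pool.Agent.Results.MP_09540e_an.FiniteModes.result :
    ∀ {ν κ S : ℝ}, 0 < ν → 0 < κ → 0 < S →
      ∀ {u0 : L2 (univ : Set R3) R3} {z0 : L2 (univ : Set R3) Mat},
        (u0, z0) ∈ H1graph univ → IsAxi u0 →
        (∃ g : L2 (univ : Set R3) R3, ∀ φ, IsTest univ φ →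
          rhs ν u0 z0 0 φ = ∫ x in univ, ⟪g.fn x, φ x⟫_ℝ) → ‖z0‖ ≤ S →
      ∀ {k : ℕ} {ψ : Fin k → R3 → R3}, (∀ j, IsTest univ (ψ j)) →
      ∃ (T2 M : ℝ) (h : ℝ → ℝ) (u : ℝ → L2 (univ : Set R3) R3)
        (G B : ℝ → L2 (univ : Set R3) Mat),
        (∀ t, h t = incr κ S ‖G t - B t‖) ∧
        (∀ t, ∃ w, IsTest univ w ∧ IsClass (B t) (jac w)) ∧
        (∀ t, ⟪B t, G t - B t⟫_ℝ = 0) ∧
        (∀ j t, 0 ≤ t → ∫ x in univ, ⟪(G t - B t).fn x, jac (ψ j) x⟫_ℝ = 0) ∧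
        u 0 = u0 ∧ (∀ t, 0 ≤ t → IsAxi (u t) ∧ ‖G t‖ ≤ M) ∧
        Tendsto (fun t => ‖G t‖) atTop (𝓝 0) ∧ (∀ t, T2 ≤ t → h t = 0) ∧
        volume {t | 0 ≤ t ∧ h t ≠ 0} ≤ ENNReal.ofReal (‖u0‖ ^ 2 / (2 * ν * S ^ 2)) ∧
        ∀ T, 0 < T → (∃ (u' : ℝ → L2 (univ : Set R3) R3) (G' : ℝ → L2 (univ : Set R3) Mat),
            IsStrong univ ν T (fun t => -(h t • (G t - B t))) u u' G G') ∧
          (∀ {v v' : ℝ → L2 (univ : Set R3) R3} {Y Y' : ℝ → L2 (univ : Set R3) Mat},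
            IsStrong univ ν T (fun _ => 0) v v' Y Y' → v 0 = u0 →
            (∀ t ∈ Icc 0 T, ‖Y t‖ ≤ S) → ∀ t ∈ Icc 0 T, u t = v t ∧ h t = 0) ∧
          ContinuousOn h (Icc 0 T) ∧ ∫ t in (0 : ℝ)..T, h t ^ 5 ≤ κ ^ 4 * (‖u0‖ ^ 2 / 2) ∧
          ∫ t in (0 : ℝ)..T, ‖h t • (G t - B t)‖ ^ (5 / 3 : ℝ)
            ≤ κ ^ (2 / 3 : ℝ) * (‖u0‖ ^ 2 / 2) ∧
          ‖u T‖ ^ 2 / 2 + ∫ s in (0 : ℝ)..T, (ν * ‖G s‖ ^ 2 + h s * ‖G s - B s‖ ^ 2)
            = ‖u0‖ ^ 2 / 2 := by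
  intro ν κ S hν hκ hS u0 z0 h0 hax hc hSz k ψ hψ
  exact H772R2.NAX.fin_pub hν hκ hS h0 hax hc hSz hψ
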